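import Pool.Agent.Lib_helper52.LQ.Defs
import Pool.Agent.Lib_helper53.LQ.N1
import Pool.Agent.Lib_helper49.LQ.N2
import Pool.Agent.Lib_helper37.LQ.R0
import Pool.Agent.Lib_helper58.LQ.LB
import Pool.Agent.Lib_helper52.LQ.P.LF
import Pool.Agent.Lib_helper13.LQ.EZ
import Pool.Agent.Lib_helper35.LQ.EY
import Pool.Agent.Lib_helper35.LQ.V0

set_option autoImplicit false

namespace Pool.Agent.LQ

open MeasureTheory ENNReal Set Filter Topology Pool.Agent.EPS Pool.Agent.YG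

variable {d : ℕ}

/-- One step. It suffices to prove it with `+ s² δ` for every `δ > 0`. Take `e` from `l_final`, then
`r > 0` with `2 θ r² (4L)⁴ ≤ e / 2`, `r (4L) ≤ 1/2`, and `γ` from `vv_near` with
`η` small (`2 η / r² ≤ e / 2`, `2 η ≤ s² δ`). By `e_z` and `vv_le` (for the two tilts of `γ`) the
hypothesis of `l_final` holds; then `vv_le` for `γ` and the two tilts of `β`, and `e_y`. -/
theorem v_step (θ L : ℝ) (h0 : 0 < θ) (h1 : θ < 1) (hL : 0 < L) (α β : Measure (Eu d))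
    (hα : Nc α) (hβ : Sp L β) (j : Fin d) (s : ℝ) (hs : 0 < s) (hsL : s * (2 * L) ≤ 1 / 2) :
    VV θ L α (tl β (fun y => 1 + s * co L β j y)) +
      VV θ L α (tl β (fun y => 1 - s * co L β j y)) ≤
      2 * VV θ L α β + s ^ 4 * (2 * L) ^ 4 := by
  refine le_of_forall_pos_le_add fun ε hε => ?_
  have iα : IsProbabilityMeasure α := hα.1
  have iβ : IsProbabilityMeasure β := hβ.1.1
  set δ : ℝ := ε / (2 * s ^ 2) with hδ
  have hδ0 : 0 < δ := by positivity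
  obtain ⟨e, he, hLF⟩ := l_final (d := d) θ L δ h0 h1 hL hδ0
  set r : ℝ := min 1 (min (1 / (8 * L)) (e / (4 * (4 * L) ^ 4))) with hr
  have hr0 : 0 < r := by
    rw [hr]
    refine lt_min one_pos (lt_min (by positivity) (by positivity))
  have hr1 : r ≤ 1 := min_le_left _ _
  have hr2 : r ≤ 1 / (8 * L) := (min_le_right _ _).trans (min_le_left _ _)
  have hr3 : r ≤ e / (4 * (4 * L) ^ 4) := (min_le_right _ _).trans (min_le_right _ _)
  have hrL : r * (4 * L) ≤ 1 / 2 := by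
    rw [le_div_iff₀ (by positivity)] at hr2
    linarith
  have hr4 : 2 * θ * (r ^ 2 * (4 * L) ^ 4) ≤ e / 2 := by
    rw [le_div_iff₀ (by positivity)] at hr3
    have hL4 : 0 < (4 * L) ^ 4 := by positivity
    have e1 : r ^ 2 * (4 * L) ^ 4 ≤ r * (4 * L) ^ 4 := by
      refine mul_le_mul_of_nonneg_right ?_ hL4.le
      nlinarith
    have e2 : 0 ≤ r ^ 2 * (4 * L) ^ 4 := by positivity
    nlinarith
  set η : ℝ := min (e * r ^ 2 / 4) (ε / 4) with hη
  have hη0 : 0 < η := lt_min (by positivity) (by positivity)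
  have hη1 : η ≤ e * r ^ 2 / 4 := min_le_left _ _
  have hη2 : η ≤ ε / 4 := min_le_right _ _
  obtain ⟨-, γ, hγ, hγS⟩ := vv_near θ L η h0 h1 hL hη0 α β hα hβ.1
  have iγ : IsProbabilityMeasure γ := hγ.1.1
  -- tilts of β
  obtain ⟨cm, cb, c0, -⟩ := co_bd L hL.le β j
  obtain ⟨p1, p2, p3, p4, p5, p6⟩ := tl_pm β (co L β j) cm (2 * L) s cb hs.le hsL c0
  have hm1 : Measurable (fun y => 1 + s * co L β j y) := measurable_const.add (cm.const_mul s)
  have hm2 : Measurable (fun y => 1 - s * co L β j y) := measurable_const.sub (cm.const_mul s)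
  have hβ1 : Nc (tl β (fun y => 1 + s * co L β j y)) := tl_nc hβ.1 _ hm1 p1 2 p3 p5
  have hβ2 : Nc (tl β (fun y => 1 - s * co L β j y)) := tl_nc hβ.1 _ hm2 p2 2 p4 p6
  have hBm : Bm (co L β j) := ⟨cm, 2 * L, cb⟩
  obtain ⟨lV, hlV⟩ := rg_ex γ β (co L β j) hBm
  have iαγ : IsProbabilityMeasure (α.conv γ) := (nc_conv hα hγ.1).1
  obtain ⟨lW, hlW⟩ := rg_ex (α.conv γ) β (co L β j) hBm
  have hfin := hLF α β γ iα hβ hγ j (fun k κU κV κW hk hk4 hk0 hU hV hW => by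
    have hz := e_z θ h0 h1 α β γ hα hβ.1 hγ.1 k κU κV κW hk (4 * L) r hk4 hk0 hU hV hW hr0 hrL
    obtain ⟨q1, q2, q3, q4, q5, q6⟩ := tl_pm γ k hk (4 * L) r hk4 hr0.le hrL hk0
    have hn1 : Measurable (fun y => 1 + r * k y) := measurable_const.add (hk.const_mul r)
    have hn2 : Measurable (fun y => 1 - r * k y) := measurable_const.sub (hk.const_mul r)
    have hγ1 : Sp L (tl γ (fun z => 1 + r * k z)) := tl_sp hγ _ hn1 q1 2 q3 q5
    have hγ2 : Sp L (tl γ (fun z => 1 - r * k z)) := tl_sp hγ _ hn2 q2 2 q4 q6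
    have v1 := vv_le θ L h0 h1 α β _ hα hβ.1 hγ1
    have v2 := vv_le θ L h0 h1 α β _ hα hβ.1 hγ2
    generalize (∫ z, k z ^ 2 ∂γ + ∫ w, κW w ^ 2 ∂((α.conv β).conv γ)) = Q at hz ⊢
    generalize (∫ u, κU u ^ 2 ∂(α.conv γ) + ∫ v, κV v ^ 2 ∂(β.conv γ)) = R at hz ⊢
    have h2 : r ^ 2 * (R - θ * Q) ≤ r ^ 2 * e := by
      have e1 : 2 * θ * (r ^ 4 * (4 * L) ^ 4) ≤ r ^ 2 * (e / 2) := by
        have : 2 * θ * (r ^ 4 * (4 * L) ^ 4) = r ^ 2 * (2 * θ * (r ^ 2 * (4 * L) ^ 4)) := by ring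
        rw [this]
        exact mul_le_mul_of_nonneg_left hr4 (by positivity)
      have e2 : r ^ 2 * (R - θ * Q) = -(r ^ 2 * (θ * Q - R)) := by ring
      rw [e2]
      have e3 : r ^ 2 * e = 2 * (e * r ^ 2 / 4) + r ^ 2 * (e / 2) := by ring
      rw [e3]
      linarith
    have h3 : R - θ * Q ≤ e := le_of_mul_le_mul_left h2 (by positivity)
    linarith) lV lW hlV hlW
  have hy := e_y θ h0 h1 α β γ hα hβ.1 hγ.1 (co L β j) lV lW cm (2 * L) s cb c0 hlV hlW hs hsL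
  have w1 := vv_le θ L h0 h1 α _ γ hα hβ1 hγ
  have w2 := vv_le θ L h0 h1 α _ γ hα hβ2 hγ
  generalize (∫ y, co L β j y ^ 2 ∂β) - ∫ v, lV v ^ 2 ∂(γ.conv β) = b at hfin hy
  generalize (∫ y, co L β j y ^ 2 ∂β) - ∫ w, lW w ^ 2 ∂((α.conv γ).conv β) = q at hfin hy
  have h4 : s ^ 2 * (b - θ * q) ≤ ε / 2 := by
    have e1 : s ^ 2 * (b - θ * q) ≤ s ^ 2 * δ :=
      mul_le_mul_of_nonneg_left (by linarith) (by positivity)
    have e2 : s ^ 2 * δ = ε / 2 := by rw [hδ]; field_simp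
    linarith
  linarith

end Pool.Agent.LQ
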